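import Pool.Agent.Helper1.RG.Defs

/-! # Row D2 of project RG: cells -/

set_option autoImplicit false

namespace Pool.Agent.Helper51.RG

open Pool.Agent.Helper1.RG Complex
open scoped ComplexConjugate

theorem exp_int_mul' (a : ℤ) (r : ℝ) : Circle.exp (a * r) = Circle.exp r ^ a := by
  apply Circle.ext
  rw [Circle.coe_zpow, Circle.coe_exp, Circle.coe_exp, ← Complex.exp_int_mul]
  congr 1
  push_cast
  ring

/-- labels of the circle: equal labels give quotient `exp(i α)` with `|α| ≤ δ` -/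
theorem lab_exists (δ : ℝ) (hδ : 0 < δ) : ∃ (C : ℕ) (lab : Circle → Fin C), ∀ x y : Circle,
    lab x = lab y → ∃ α : ℝ, |α| ≤ δ ∧ x = Circle.exp α * y := by
  have hfl : ∀ x : Circle, ⌊(Complex.arg x + Real.pi) / δ⌋₊ < ⌊2 * Real.pi / δ⌋₊ + 1 := by
    intro x
    have h1 : (Complex.arg x + Real.pi) / δ ≤ 2 * Real.pi / δ := by
      apply div_le_div_of_nonneg_right _ hδ.le
      have := Complex.arg_le_pi (x : ℂ)
      linarith
    exact Nat.lt_succ_of_le (Nat.floor_le_floor h1)
  refine ⟨⌊2 * Real.pi / δ⌋₊ + 1, fun x => ⟨⌊(Complex.arg x + Real.pi) / δ⌋₊, hfl x⟩, ?_⟩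
  intro x y hxy
  have h0 : ⌊(Complex.arg x + Real.pi) / δ⌋₊ = ⌊(Complex.arg y + Real.pi) / δ⌋₊ := by
    simpa using congrArg Fin.val hxy
  refine ⟨Complex.arg x - Complex.arg y, ?_, ?_⟩
  · have px : 0 ≤ (Complex.arg x + Real.pi) / δ := by
      apply div_nonneg _ hδ.le
      have := Complex.neg_pi_lt_arg (x : ℂ)
      linarith
    have py : 0 ≤ (Complex.arg y + Real.pi) / δ := by
      apply div_nonneg _ hδ.le
      have := Complex.neg_pi_lt_arg (y : ℂ)
      linarith
    have a1 := Nat.floor_le px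
    have a2 := Nat.lt_floor_add_one ((Complex.arg x + Real.pi) / δ)
    have b1 := Nat.floor_le py
    have b2 := Nat.lt_floor_add_one ((Complex.arg y + Real.pi) / δ)
    rw [h0] at a1 a2
    have c1 : |(Complex.arg x + Real.pi) / δ - (Complex.arg y + Real.pi) / δ| ≤ 1 := by
      rw [abs_le]
      constructor <;> linarith
    have c2 : (Complex.arg x + Real.pi) / δ - (Complex.arg y + Real.pi) / δ =
        (Complex.arg x - Complex.arg y) / δ := by
      rw [← sub_div]
      congr 1
      ring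
    rw [c2, abs_div, abs_of_pos hδ, div_le_one hδ] at c1
    exact c1
  · rw [Circle.exp_sub, Circle.exp_arg, Circle.exp_arg, div_mul_cancel]

theorem e_add (T x y : ℂ) : e T (x + y) = e T x * e T y := by
  unfold e
  rw [mul_add, Complex.add_re, Circle.exp_add]

theorem e_int (T x : ℂ) (a : ℤ) : e T (a * x) = e T x ^ a := by
  unfold e
  rw [← exp_int_mul']
  congr 1
  have : conj T * ((a : ℂ) * x) = (a : ℂ) * (conj T * x) := by ring
  rw [this]
  simp [Complex.mul_re]

theorem chi_int (χ : Om) (x : ℂ) (a : ℤ) : χ (a * x) = χ x ^ a := by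
  have : (a : ℂ) * x = a • x := by rw [zsmul_eq_mul]
  rw [this, AddChar.map_zsmul_eq_zpow]

theorem st_D2 : ST_D2 := by
  intro s _ hs0 η hη
  have hsn : 0 < ‖s‖ := norm_pos_iff.mpr hs0
  have hδ : 0 < η / (2 * ‖s‖) := by positivity
  obtain ⟨C, lab, hlab⟩ := lab_exists _ hδ
  refine ⟨C * C, fun χ => finProdFinEquiv (lab (χ (1 / s)), lab (χ (I / s))), ?_⟩
  intro χ χ' hcell
  have h1 := finProdFinEquiv.injective hcell
  rw [Prod.mk.injEq] at h1
  obtain ⟨α, hα, eα⟩ := hlab _ _ h1.1
  obtain ⟨β, hβ, eβ⟩ := hlab _ _ h1.2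
  refine ⟨conj (s * ((α : ℂ) - β * I)), ?_, ?_⟩
  · rw [RCLike.norm_conj, norm_mul]
    have h2 : ‖((α : ℂ) - β * I)‖ ≤ |α| + |β| := by
      refine (norm_sub_le _ _).trans ?_
      rw [norm_mul, Complex.norm_I, mul_one, Complex.norm_real, Complex.norm_real]
      exact le_refl _
    calc ‖s‖ * ‖((α : ℂ) - β * I)‖ ≤ ‖s‖ * (η / (2 * ‖s‖) + η / (2 * ‖s‖)) := by
          apply mul_le_mul_of_nonneg_left _ hsn.le
          linarith
      _ = η := by field_simp; ring
  · rintro z ⟨a, b, rfl⟩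
    have hz : ((a : ℂ) + b * I) / (gb ^ 0 * s) = (a : ℂ) * (1 / s) + (b : ℂ) * (I / s) := by
      rw [pow_zero, one_mul]
      ring
    have ew1 : e (conj (s * ((α : ℂ) - β * I))) (1 / s) = Circle.exp α := by
      unfold e
      congr 1
      rw [Complex.conj_conj]
      have : s * ((α : ℂ) - β * I) * (1 / s) = (α : ℂ) - β * I := by
        field_simp
      rw [this]
      simp
    have ew2 : e (conj (s * ((α : ℂ) - β * I))) (I / s) = Circle.exp β := by
      unfold e
      congr 1
      rw [Complex.conj_conj]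
      have : s * ((α : ℂ) - β * I) * (I / s) = (β : ℂ) + α * I := by
        field_simp
        linear_combination (-(β : ℂ)) * Complex.I_sq
      rw [this]
      simp
    rw [hz, AddChar.map_add_eq_mul, AddChar.map_add_eq_mul, e_add, chi_int, chi_int, chi_int,
      chi_int, e_int, e_int, ew1, ew2, eα, eβ, mul_zpow, mul_zpow]
    exact mul_mul_mul_comm _ _ _ _

end Pool.Agent.Helper51.RG
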