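import Pool.Agent.Helper51.RG.D2

/-! # Row F1 of project RG: from two equal codes to `Sn` -/

set_option autoImplicit false

namespace Pool.Agent.Helper51.RG

open Pool.Agent.Helper1.RG Complex
open scoped ComplexConjugate

theorem gb_ne : gb ≠ 0 := by
  intro h
  have := congrArg Complex.re h
  simp [gb] at this

theorem five_ne (a : ℕ) : (5 * (a : ℂ) - I) ≠ 0 := by
  intro h
  have := congrArg Complex.im h
  simp at this

theorem norm_five (a X : ℕ) (h : a < X) : ‖(5 * (a : ℂ) - I)‖ ≤ 5 * X := by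
  have h1 : ‖(5 * (a : ℂ) - I)‖ ^ 2 = (5 * (a : ℝ)) ^ 2 + 1 := by
    rw [← Complex.normSq_eq_norm_sq, Complex.normSq_apply]
    simp
    ring
  have h2 : (a : ℝ) + 1 ≤ X := by exact_mod_cast h
  have h3 : (0 : ℝ) ≤ a := Nat.cast_nonneg _
  have h4 : ‖(5 * (a : ℂ) - I)‖ ^ 2 ≤ (5 * (X : ℝ)) ^ 2 := by
    rw [h1]
    nlinarith
  exact le_of_sq_le_sq h4 (by positivity)

theorem ZI_mul {x y : ℂ} (hx : x ∈ ZI) (hy : y ∈ ZI) : x * y ∈ ZI := by
  obtain ⟨a, b, rfl⟩ := hx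
  obtain ⟨c, d, rfl⟩ := hy
  refine ⟨a * c - b * d, a * d + b * c, ?_⟩
  push_cast
  linear_combination (-(b : ℂ) * d) * (-Complex.I_sq)

theorem ZI_conj {x : ℂ} (hx : x ∈ ZI) : conj x ∈ ZI := by
  obtain ⟨a, b, rfl⟩ := hx
  refine ⟨a, -b, ?_⟩
  push_cast
  simp

theorem ZI_int (n : ℤ) : (n : ℂ) ∈ ZI := ⟨n, 0, by simp⟩

theorem ZI_five (a : ℕ) : (5 * (a : ℂ) - I) ∈ ZI := ⟨5 * a, -1, by push_cast; ring⟩

theorem ZI_negI : (-I : ℂ) ∈ ZI := ⟨0, -1, by push_cast; ring⟩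

theorem st_F1 : ST_F1 := by
  intro χ n h B X a b s t hHt hs hs0 haX hbX hab ht hA
  obtain ⟨num, hnumZ, den, hdenZ, hnum0, hnd, hh, hnB⟩ := hHt
  have hden0 : den ≠ 0 := by
    intro h0
    rw [h0, norm_zero] at hnd
    exact hnum0 (norm_eq_zero.mp hnd)
  have hs0' : s ≠ 0 := hs0
  -- the integers
  set d : ℤ := (b : ℤ) - a with hd
  have hd0 : d ≠ 0 := by
    rw [hd]
    omega
  obtain ⟨p, q, hpq⟩ := hnumZ
  set Nn : ℤ := p ^ 2 + q ^ 2 with hNn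
  have hnsq : (num * conj num : ℂ) = (Nn : ℂ) := by
    rw [hpq, hNn]
    push_cast
    simp only [map_add, map_mul, Complex.conj_I, map_intCast]
    linear_combination (-(q : ℂ) ^ 2) * Complex.I_sq
  have hnorm : ‖num‖ ^ 2 = (Nn : ℝ) := by
    have h1 : ((‖num‖ ^ 2 : ℝ) : ℂ) = ((Nn : ℝ) : ℂ) := by
      rw [← Complex.normSq_eq_norm_sq, ← Complex.mul_conj, hnsq]
      push_cast
      rfl
    exact_mod_cast h1
  have hnum1 : 0 < ‖num‖ := norm_pos_iff.mpr hnum0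
  have hNpos : 0 < Nn := by
    have : (0 : ℝ) < (Nn : ℝ) := by rw [← hnorm]; positivity
    exact_mod_cast this
  have hNabs : ((Nn.natAbs : ℕ) : ℤ) = Nn := Int.natAbs_of_nonneg hNpos.le
  set M : ℕ := 10 * d.natAbs * Nn.natAbs with hM
  have hM1 : 1 ≤ M := by
    have h1 : 1 ≤ d.natAbs := Int.natAbs_pos.mpr hd0
    have h2 : 1 ≤ Nn.natAbs := Int.natAbs_pos.mpr hNpos.ne'
    have h3 := Nat.mul_le_mul h1 h2
    rw [hM, mul_assoc]
    omega
  set σ : ℤ := d.sign with hσ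
  have hσd : σ * d = (d.natAbs : ℤ) := by rw [hσ, Int.sign_mul_self_eq_natAbs]
  have hMc : (M : ℂ) = 10 * ((σ : ℂ) * (d : ℂ)) * (Nn : ℂ) := by
    have h1 : ((σ : ℂ) * (d : ℂ)) = ((d.natAbs : ℕ) : ℂ) := by
      rw [← Int.cast_mul, hσd, Int.cast_natCast]
    have h2 : (Nn : ℂ) = ((Nn.natAbs : ℕ) : ℂ) := by
      rw [← Int.cast_natCast, hNabs]
    rw [h1, h2, hM]
    push_cast
    ring
  have hM0 : (M : ℂ) ≠ 0 := by
    have : M ≠ 0 := by omega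
    exact_mod_cast this
  have hMr : (M : ℝ) = 10 * |(d : ℝ)| * ‖num‖ ^ 2 := by
    rw [hnorm, hM]
    push_cast
    rw [Nat.cast_natAbs, Nat.cast_natAbs, abs_of_pos hNpos]
    push_cast
    rfl
  -- the multiplier
  set κ : ℂ := -I * (σ : ℂ) * ((5 * (a : ℂ) - I) * (5 * (b : ℂ) - I)) * den * conj num with hκ
  have hκZ : κ ∈ ZI := by
    rw [hκ]
    exact ZI_mul (ZI_mul (ZI_mul (ZI_mul ZI_negI (ZI_int σ))
      (ZI_mul (ZI_five a) (ZI_five b))) hdenZ) (ZI_conj ⟨p, q, hpq⟩)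
  have hw : (wu a * h - wu b * h) * κ = (M : ℂ) := by
    have h5a := five_ne a
    have h5b := five_ne b
    have hdc : (d : ℂ) = (b : ℂ) - a := by rw [hd]; push_cast; rfl
    rw [hMc, ← hnsq, hκ, hh]
    unfold wu
    rw [hdc]
    field_simp
    ring_nf
    simp only [Complex.I_sq]
    ring
  have hκn : ‖κ‖ ≤ (5 * (X : ℝ)) ^ 2 * ‖num‖ ^ 2 := by
    have hσn : ‖(σ : ℂ)‖ ≤ 1 := by
      rw [Complex.norm_intCast]
      rcases Int.sign_trichotomy d with h1 | h1 | h1 <;> rw [hσ, h1] <;> norm_num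
    rw [hκ, norm_mul, norm_mul, norm_mul, norm_mul, norm_mul, norm_neg, Complex.norm_I, one_mul,
      RCLike.norm_conj, ← hnd]
    have h1 := norm_five a X haX
    have h2 := norm_five b X hbX
    have h3 : ‖(σ : ℂ)‖ * (‖(5 * (a : ℂ) - I)‖ * ‖(5 * (b : ℂ) - I)‖) ≤
        1 * ((5 * (X : ℝ)) * (5 * X)) := by
      apply mul_le_mul hσn _ (by positivity) one_pos.le
      exact mul_le_mul h1 h2 (norm_nonneg _) (by positivity)
    calc ‖(σ : ℂ)‖ * (‖(5 * (a : ℂ) - I)‖ * ‖(5 * (b : ℂ) - I)‖) * ‖num‖ * ‖num‖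
        ≤ 1 * ((5 * (X : ℝ)) * (5 * X)) * ‖num‖ * ‖num‖ := by
          apply mul_le_mul_of_nonneg_right _ (norm_nonneg _)
          exact mul_le_mul_of_nonneg_right h3 (norm_nonneg _)
      _ = (5 * (X : ℝ)) ^ 2 * ‖num‖ ^ 2 := by ring
  have hX1 : (1 : ℝ) ≤ X := by
    have : 1 ≤ X := by omega
    exact_mod_cast this
  have hdabs : |(d : ℝ)| ≤ X := by
    have h1 : (a : ℝ) ≤ X := by exact_mod_cast haX.le
    have h2 : (b : ℝ) ≤ X := by exact_mod_cast hbX.le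
    have h3 : (0 : ℝ) ≤ a := Nat.cast_nonneg _
    have h4 : (0 : ℝ) ≤ b := Nat.cast_nonneg _
    rw [hd]
    push_cast
    rw [abs_le]
    constructor <;> linarith
  have hd1 : 1 ≤ |(d : ℝ)| := by
    have := Int.one_le_abs hd0
    exact_mod_cast this
  have hB0 : 0 ≤ B := (norm_nonneg _).trans hnB
  have hnB2 : ‖num‖ ^ 2 ≤ B ^ 2 := pow_le_pow_left₀ (norm_nonneg _) hnB 2
  refine ⟨M, t * conj κ / M, hM1, ?_, ?_, ?_⟩
  · rw [hMr]
    calc 10 * |(d : ℝ)| * ‖num‖ ^ 2 ≤ 10 * X * B ^ 2 := by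
          apply mul_le_mul _ hnB2 (by positivity) (by positivity)
          linarith
      _ ≤ 10 * (X : ℝ) ^ 2 * (1 + B ^ 2) := by
          have h1 : (X : ℝ) ≤ (X : ℝ) ^ 2 := by nlinarith
          have h2 : 10 * (X : ℝ) * B ^ 2 ≤ 10 * (X : ℝ) ^ 2 * B ^ 2 := by
            apply mul_le_mul_of_nonneg_right _ (sq_nonneg B)
            linarith
          nlinarith [sq_nonneg (X : ℝ)]
  · rw [norm_div, norm_mul, RCLike.norm_conj, Complex.norm_natCast, hMr]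
    have hpos : 0 < 10 * |(d : ℝ)| * ‖num‖ ^ 2 := by positivity
    rw [div_le_iff₀ hpos]
    have h1 : ‖t‖ * ‖κ‖ ≤ 1 * ((5 * (X : ℝ)) ^ 2 * ‖num‖ ^ 2) :=
      mul_le_mul ht hκn (norm_nonneg _) one_pos.le
    have h2 : (25 : ℝ) * X ^ 2 ≤ 10 * (X : ℝ) ^ 2 * (1 + B ^ 2) * (10 * |(d : ℝ)|) := by
      have h3 : (10 : ℝ) * X ^ 2 * 1 ≤ 10 * (X : ℝ) ^ 2 * (1 + B ^ 2) := by
        apply mul_le_mul_of_nonneg_left _ (by positivity)
        nlinarith [sq_nonneg B]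
      have h4 : (10 : ℝ) * X ^ 2 * 1 * 10 ≤ 10 * (X : ℝ) ^ 2 * (1 + B ^ 2) * (10 * |(d : ℝ)|) := by
        apply mul_le_mul h3 _ (by norm_num) (by positivity)
        linarith
      nlinarith [sq_nonneg (X : ℝ)]
    calc ‖t‖ * ‖κ‖ ≤ 25 * (X : ℝ) ^ 2 * ‖num‖ ^ 2 := by linarith
      _ ≤ 10 * (X : ℝ) ^ 2 * (1 + B ^ 2) * (10 * |(d : ℝ)|) * ‖num‖ ^ 2 :=
          mul_le_mul_of_nonneg_right h2 (by positivity)
      _ = 10 * (X : ℝ) ^ 2 * (1 + B ^ 2) * (10 * |(d : ℝ)| * ‖num‖ ^ 2) := by ring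
  · intro z hz
    have hgb := pow_ne_zero (2 ^ n) gb_ne
    have hkz : κ * z * s ∈ ZI := ZI_mul (ZI_mul hκZ hz) hs
    have h1 := hA (κ * z * s) hkz
    have hx : κ * z * s / (gb ^ (2 ^ n) * s) = κ * z / gb ^ (2 ^ n) := by
      field_simp
    rw [hx] at h1
    have h2 : χ (wu a * h * (κ * z / gb ^ (2 ^ n))) =
        e t (κ * z / gb ^ (2 ^ n)) * χ (wu b * h * (κ * z / gb ^ (2 ^ n))) := by
      simpa [AddChar.mulShift_apply] using h1
    have h3 : (M : ℂ) * z / gb ^ (2 ^ n) =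
        wu a * h * (κ * z / gb ^ (2 ^ n)) - wu b * h * (κ * z / gb ^ (2 ^ n)) := by
      rw [← hw]
      ring
    rw [h3, AddChar.map_sub_eq_div, h2, mul_div_assoc, div_self', mul_one]
    unfold e
    congr 1
    congr 1
    rw [← h3, map_div₀, map_mul, Complex.conj_conj, Complex.conj_natCast]
    field_simp

end Pool.Agent.Helper51.RG
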