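import Pool.Agent.Helper1.RG.Defs

/-! # Row D4 of project RG: words with few letters -/

set_option autoImplicit false

namespace Pool.Agent.Helper51.RG

open Pool.Agent.Helper1.RG

theorem st_D4 : ST_D4 := by
  intro C η hη
  have hC1 : (0 : ℝ) < 2 * ((C : ℝ) + 1) := by positivity
  obtain ⟨x, hx0, hx1, hxC⟩ : ∃ x : ℝ, 0 < x ∧ x ≤ 1 ∧ (C : ℝ) * x ≤ η / 2 := by
    refine ⟨min 1 (η / (2 * ((C : ℝ) + 1))), lt_min one_pos (div_pos hη hC1), min_le_left _ _, ?_⟩
    have h1 : min 1 (η / (2 * ((C : ℝ) + 1))) ≤ η / (2 * ((C : ℝ) + 1)) := min_le_right _ _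
    have h2 : (C : ℝ) * min 1 (η / (2 * ((C : ℝ) + 1))) ≤ (C : ℝ) * (η / (2 * ((C : ℝ) + 1))) :=
      mul_le_mul_of_nonneg_left h1 (Nat.cast_nonneg _)
    refine h2.trans ?_
    rw [← mul_div_assoc, div_le_div_iff₀ hC1 two_pos]
    nlinarith [hη, (Nat.cast_nonneg C : (0 : ℝ) ≤ C)]
  have hlog : Real.log x ≤ 0 := Real.log_nonpos hx0.le hx1
  have hden : 0 < 2 * (1 - Real.log x) := by linarith
  refine ⟨η / (2 * (1 - Real.log x)), div_pos hη hden, ?_⟩
  set lam : ℝ := η / (2 * (1 - Real.log x)) with hlam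
  have hlam0 : 0 < lam := div_pos hη hden
  have hlamlog : -(lam * Real.log x) ≤ η / 2 := by
    have : lam * (2 * (1 - Real.log x)) = η := div_mul_cancel₀ η hden.ne'
    nlinarith
  intro L
  have hsum : ∑ w : Fin L → Option (Fin C), ∏ j, (if w j = none then (1 : ℝ) else x) =
      (1 + C * x) ^ L := by
    have h := Finset.prod_univ_sum (fun _ : Fin L => (Finset.univ : Finset (Option (Fin C))))
      (fun _ o => if o = none then (1 : ℝ) else x)
    rw [Fintype.piFinset_univ] at h
    rw [← h, Finset.prod_const, Finset.card_univ, Fintype.card_fin, Fintype.sum_option]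
    simp
  have hterm : ∀ w : Fin L → Option (Fin C),
      (((Finset.univ : Finset (Fin L)).filter fun j => w j ≠ none).card : ℝ) ≤ lam * L →
      Real.exp (lam * L * Real.log x) ≤ ∏ j, (if w j = none then (1 : ℝ) else x) := by
    intro w hw
    rw [Finset.prod_ite, Finset.prod_const_one, one_mul, Finset.prod_const]
    have h1 : x ^ ((Finset.univ : Finset (Fin L)).filter fun j => ¬ w j = none).card =
        Real.exp ((((Finset.univ : Finset (Fin L)).filter fun j => ¬ w j = none).card : ℝ) *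
          Real.log x) := by
      rw [Real.exp_nat_mul, Real.exp_log hx0]
    rw [h1]
    apply Real.exp_le_exp.mpr
    exact mul_le_mul_of_nonpos_right hw hlog
  have hnn : ∀ w : Fin L → Option (Fin C), 0 ≤ ∏ j, (if w j = none then (1 : ℝ) else x) := by
    intro w
    apply Finset.prod_nonneg
    intro j _
    split_ifs
    · exact zero_le_one
    · exact hx0.le
  set S := (Finset.univ : Finset (Fin L → Option (Fin C))).filter fun w =>
    (((Finset.univ : Finset (Fin L)).filter fun j => w j ≠ none).card : ℝ) ≤ lam * L with hS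
  have h1 : (S.card : ℝ) * Real.exp (lam * L * Real.log x) ≤ (1 + C * x) ^ L := by
    rw [← hsum]
    calc (S.card : ℝ) * Real.exp (lam * L * Real.log x)
        = ∑ w ∈ S, Real.exp (lam * L * Real.log x) := by rw [Finset.sum_const, nsmul_eq_mul]
      _ ≤ ∑ w ∈ S, ∏ j, (if w j = none then (1 : ℝ) else x) := by
          apply Finset.sum_le_sum
          intro w hw
          exact hterm w (Finset.mem_filter.mp hw).2
      _ ≤ ∑ w : Fin L → Option (Fin C), ∏ j, (if w j = none then (1 : ℝ) else x) :=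
          Finset.sum_le_sum_of_subset_of_nonneg (Finset.subset_univ _) (fun w _ _ => hnn w)
  have h2 : (1 + (C : ℝ) * x) ^ L ≤ Real.exp (η / 2 * L) := by
    have h3 : 1 + (C : ℝ) * x ≤ Real.exp (η / 2) := by
      have := Real.add_one_le_exp (η / 2)
      linarith
    calc (1 + (C : ℝ) * x) ^ L ≤ Real.exp (η / 2) ^ L :=
          pow_le_pow_left₀ (by positivity) h3 L
      _ = Real.exp (η / 2 * L) := by rw [← Real.exp_nat_mul, mul_comm]
  have h3 : (S.card : ℝ) ≤ Real.exp (η / 2 * L) / Real.exp (lam * L * Real.log x) := by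
    rw [le_div_iff₀ (Real.exp_pos _)]
    exact h1.trans h2
  refine h3.trans ?_
  rw [← Real.exp_sub]
  apply Real.exp_le_exp.mpr
  have hL : (0 : ℝ) ≤ L := Nat.cast_nonneg _
  nlinarith [mul_le_mul_of_nonneg_right hlamlog hL]

end Pool.Agent.Helper51.RG
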